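import Mathlib
import Pool.Agent.W662.KKS.Stmts

/-!
Project KKS, part SEL: selection of approximate cocycle data.
-/

set_option autoImplicit false
set_option linter.unusedSectionVars false

open scoped InnerProductSpace
open Pool.Agent.Helper278 Pool.Agent.W662.KKS

namespace Pool.Agent.W728.KKS.Sel

variable {H : Type} [NormedAddCommGroup H] [InnerProductSpace ℂ H] [CompleteSpace H]

theorem apx (P Q : Set (H →L[ℂ] H)) (ξ : H) (γ D : ℝ) (hγ : 0 < γ) (hD : 0 ≤ D)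
    (hRN : RN P Q ξ) (hadd : ∀ y ∈ P, ∀ z ∈ P, y + z ∈ P)
    (hsmul : ∀ c : ℂ, ∀ y ∈ P, c • y ∈ P)
    (hcomm : ∀ y ∈ P, ∀ q ∈ Q, y * q = q * y) (x : H →L[ℂ] H)
    (hx : ∃ y ∈ P, ‖x - y‖ ≤ γ * ‖x‖)
    (hd : ∀ q ∈ Q, ‖(x * q - q * x) ξ‖ ≤ D * ‖x‖ * ‖q‖) :
    ∃ y ∈ P, ‖x - y‖ ≤ 5 * γ * ‖x‖ ∧ ‖(x - y) ξ‖ ≤ 8 * D * ‖x‖ := by
  obtain ⟨y0, hy0, hxy⟩ := hx
  rcases eq_or_ne x 0 with rfl | hx0
  · have h0 : y0 = 0 := by
      have h1 : ‖(0 : H →L[ℂ] H) - y0‖ ≤ 0 := by simpa using hxy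
      have h2 := norm_le_zero_iff.1 h1
      simpa using h2
    refine ⟨y0, hy0, ?_, ?_⟩ <;> simp [h0]
  have hxn : 0 < ‖x‖ := norm_pos_iff.2 hx0
  obtain ⟨t, ht⟩ : ∃ t : ℝ, t = γ * ‖x‖ := ⟨_, rfl⟩
  have htp : 0 < t := by rw [ht]; positivity
  have htne : t ≠ 0 := htp.ne'
  obtain ⟨z, hzd⟩ : ∃ z : H →L[ℂ] H, z = ((t⁻¹ : ℝ) : ℂ) • (x - y0) := ⟨_, rfl⟩
  have hz : ‖z‖ ≤ 1 := by
    rw [hzd, norm_smul, Complex.norm_real, Real.norm_of_nonneg (by positivity)]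
    rw [inv_mul_le_iff₀ htp, mul_one, ht]
    exact hxy
  have hxz : x - y0 = (t : ℂ) • z := by
    rw [hzd, smul_smul, ← Complex.ofReal_mul, mul_inv_cancel₀ htne, Complex.ofReal_one, one_smul]
  have hcz : ∀ q ∈ Q, ‖(z * q - q * z) ξ‖ ≤ D / γ * ‖q‖ := by
    intro q hq
    have h1 : z * q - q * z = ((t⁻¹ : ℝ) : ℂ) • (x * q - q * x) := by
      rw [hzd, smul_mul_assoc, mul_smul_comm, ← smul_sub, sub_mul, mul_sub, hcomm y0 hy0 q hq]
      congr 1
      abel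
    rw [h1, smul_apply, norm_smul, Complex.norm_real,
      Real.norm_of_nonneg (by positivity)]
    calc t⁻¹ * ‖(x * q - q * x) ξ‖ ≤ t⁻¹ * (D * ‖x‖ * ‖q‖) := by
          gcongr; exact hd q hq
      _ = D / γ * ‖q‖ := by rw [ht]; field_simp
  obtain ⟨y1, hy1, hn1, hv1⟩ := hRN (z ξ) (D / γ) (by positivity) (by
    intro b hb hb1
    have h2 : b (z ξ) = z (b ξ) - (z * b - b * z) ξ := by
      simp only [sub_apply, mul_apply_eq_comp]
      abel
    rw [h2]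
    calc ‖z (b ξ) - (z * b - b * z) ξ‖ ≤ ‖z (b ξ)‖ + ‖(z * b - b * z) ξ‖ := norm_sub_le _ _
      _ ≤ ‖z‖ * ‖b ξ‖ + D / γ * ‖b‖ := by
          gcongr
          · exact z.le_opNorm _
          · exact hcz b hb
      _ ≤ 1 * ‖b ξ‖ + D / γ * 1 := by gcongr
      _ = ‖b ξ‖ + D / γ := by ring)
  refine ⟨y0 + (t : ℂ) • y1, hadd _ hy0 _ (hsmul _ _ hy1), ?_, ?_⟩
  · have h3 : x - (y0 + (t : ℂ) • y1) = (t : ℂ) • (z - y1) := by
      rw [smul_sub, ← hxz]; abel
    rw [h3, norm_smul, Complex.norm_real, Real.norm_of_nonneg htp.le]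
    calc t * ‖z - y1‖ ≤ t * (‖z‖ + ‖y1‖) := by gcongr; exact norm_sub_le _ _
      _ ≤ t * (1 + 4) := by gcongr
      _ = 5 * γ * ‖x‖ := by rw [ht]; ring
  · have h3 : x - (y0 + (t : ℂ) • y1) = (t : ℂ) • (z - y1) := by
      rw [smul_sub, ← hxz]; abel
    rw [h3, smul_apply, norm_smul, Complex.norm_real,
      Real.norm_of_nonneg htp.le, sub_apply]
    calc t * ‖z ξ - y1 ξ‖ ≤ t * (8 * (D / γ)) := by gcongr
      _ = 8 * D * ‖x‖ := by rw [ht]; field_simp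

/-- iteration: elements of `P` almost commute with `M'` at `ξ`. -/
theorem stepD (M : VonNeumannAlgebra H) (ξ : H) (ρ : (H →L[ℂ] H) → (H →L[ℂ] H))
    (G : ℕ → Finset (H →L[ℂ] H)) (P Q : Set (H →L[ℂ] H)) (γ δ D : ℝ)
    (h1 : RN (M : Set (H →L[ℂ] H)) M.commutant ξ)
    (hK : KP M ξ ρ G P Q γ) (hγ : 0 < γ) (hγ1 : γ ≤ 1 / 160) (hδ : 0 ≤ δ)
    (hD : 0 ≤ D) (hDl : Dl (M : Set (H →L[ℂ] H)) Q ξ δ)
    (hP : Dl P (M.commutant : Set (H →L[ℂ] H)) ξ D) :
    Dl P (M.commutant : Set (H →L[ℂ] H)) ξ (2 * δ + D / 2) := by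
  intro y hy r hr
  obtain ⟨x, hx, hx1, hx2⟩ := apx (M : Set (H →L[ℂ] H)) (M.commutant : Set (H →L[ℂ] H)) ξ γ D hγ hD
    h1 (fun a ha b hb => M.toStarSubalgebra.add_mem ha hb)
    (fun c a ha => M.toStarSubalgebra.smul_mem ha c)
    (fun a ha b hb => (VonNeumannAlgebra.mem_commutant_iff.1 hb a ha)) y
    (hK.nPM y hy) (fun q hq => hP y hy q hq)
  obtain ⟨q, hq, hq1, hq2⟩ := apx Q P ξ γ D hγ hD hK.rnQ hK.addQ hK.smulQ
    (fun a ha b hb => (hK.comm b hb a ha).symm) r (hK.nM'Q r hr) (fun b hb => by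
      have h2 := hP b hb r hr
      have h3 : (r * b - b * r) ξ = -((b * r - r * b) ξ) := by
        simp only [sub_apply]
        abel
      rw [h3, norm_neg]
      calc ‖(b * r - r * b) ξ‖ ≤ D * ‖b‖ * ‖r‖ := h2
        _ = D * ‖r‖ * ‖b‖ := by ring)
  have hxr : x * r = r * x := VonNeumannAlgebra.mem_commutant_iff.1 hr x hx
  have hyq : y * q = q * y := hK.comm y hy q hq
  have key : y * r - r * y = ((y - x) * (r - q) - (r - q) * (y - x)) - (x * q - q * x) := by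
    have : ((y - x) * (r - q) - (r - q) * (y - x)) - (x * q - q * x) =
        (y * r - r * y) - (y * q - q * y) - (x * r - r * x) := by noncomm_ring
    rw [this, hxr, hyq]; simp
  have hxn : ‖x‖ ≤ (1 + 5 * γ) * ‖y‖ := by
    have h4 : x = y - (y - x) := by abel
    calc ‖x‖ = ‖y - (y - x)‖ := by rw [← h4]
      _ ≤ ‖y‖ + ‖y - x‖ := norm_sub_le _ _
      _ ≤ ‖y‖ + 5 * γ * ‖y‖ := by gcongr
      _ = _ := by ring
  have hqn : ‖q‖ ≤ (1 + 5 * γ) * ‖r‖ := by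
    have h4 : q = r - (r - q) := by abel
    calc ‖q‖ = ‖r - (r - q)‖ := by rw [← h4]
      _ ≤ ‖r‖ + ‖r - q‖ := norm_sub_le _ _
      _ ≤ ‖r‖ + 5 * γ * ‖r‖ := by gcongr
      _ = _ := by ring
  have e1 : ‖(y - x) ((r - q) ξ)‖ ≤ (5 * γ * ‖y‖) * (8 * D * ‖r‖) := by
    calc ‖(y - x) ((r - q) ξ)‖ ≤ ‖y - x‖ * ‖(r - q) ξ‖ := (y - x).le_opNorm _
      _ ≤ _ := by gcongr
  have e2 : ‖(r - q) ((y - x) ξ)‖ ≤ (5 * γ * ‖r‖) * (8 * D * ‖y‖) := by
    calc ‖(r - q) ((y - x) ξ)‖ ≤ ‖r - q‖ * ‖(y - x) ξ‖ := (r - q).le_opNorm _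
      _ ≤ _ := by gcongr
  have e3 : ‖(x * q - q * x) ξ‖ ≤ δ * ((1 + 5 * γ) * ‖y‖) * ((1 + 5 * γ) * ‖r‖) := by
    calc ‖(x * q - q * x) ξ‖ ≤ δ * ‖x‖ * ‖q‖ := hDl x hx q hq
      _ ≤ _ := by gcongr
  have h5 : (y * r - r * y) ξ = (y - x) ((r - q) ξ) - (r - q) ((y - x) ξ) - (x * q - q * x) ξ := by
    rw [key]
    simp only [sub_apply, mul_apply_eq_comp]
  rw [h5]
  calc ‖(y - x) ((r - q) ξ) - (r - q) ((y - x) ξ) - (x * q - q * x) ξ‖
      ≤ ‖(y - x) ((r - q) ξ)‖ + ‖(r - q) ((y - x) ξ)‖ + ‖(x * q - q * x) ξ‖ :=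
        (norm_sub_le _ _).trans (by gcongr; exact norm_sub_le _ _)
    _ ≤ (5 * γ * ‖y‖) * (8 * D * ‖r‖) + (5 * γ * ‖r‖) * (8 * D * ‖y‖) +
        δ * ((1 + 5 * γ) * ‖y‖) * ((1 + 5 * γ) * ‖r‖) := by gcongr
    _ = (80 * γ * D + (1 + 5 * γ) ^ 2 * δ) * (‖y‖ * ‖r‖) := by ring
    _ ≤ (D / 2 + 2 * δ) * (‖y‖ * ‖r‖) := by
        have f1 : 80 * γ * D ≤ D / 2 := by nlinarith
        have f2 : (1 + 5 * γ) ^ 2 ≤ 2 := by nlinarith
        have f3 : (1 + 5 * γ) ^ 2 * δ ≤ 2 * δ := mul_le_mul_of_nonneg_right f2 hδ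
        gcongr
    _ = (2 * δ + D / 2) * ‖y‖ * ‖r‖ := by ring

theorem dlP (M : VonNeumannAlgebra H) (ξ : H) (ρ : (H →L[ℂ] H) → (H →L[ℂ] H))
    (G : ℕ → Finset (H →L[ℂ] H)) (P Q : Set (H →L[ℂ] H)) (γ δ : ℝ) (hξ : ‖ξ‖ = 1)
    (h1 : RN (M : Set (H →L[ℂ] H)) M.commutant ξ)
    (hK : KP M ξ ρ G P Q γ) (hγ : 0 < γ) (hγ1 : γ ≤ 1 / 160) (hδ : 0 ≤ δ)
    (hDl : Dl (M : Set (H →L[ℂ] H)) Q ξ δ) :
    Dl P (M.commutant : Set (H →L[ℂ] H)) ξ (4 * δ) := by
  have hn : ∀ n : ℕ, Dl P (M.commutant : Set (H →L[ℂ] H)) ξ (4 * δ + 2 * (1 / 2) ^ n) := by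
    intro n
    induction n with
    | zero =>
      intro y hy r hr
      have h2 : ‖(y * r - r * y) ξ‖ ≤ ‖y * r - r * y‖ * ‖ξ‖ := (y * r - r * y).le_opNorm _
      rw [hξ, mul_one] at h2
      calc ‖(y * r - r * y) ξ‖ ≤ ‖y * r - r * y‖ := h2
        _ ≤ ‖y * r‖ + ‖r * y‖ := norm_sub_le _ _
        _ ≤ ‖y‖ * ‖r‖ + ‖r‖ * ‖y‖ := add_le_add (norm_mul_le _ _) (norm_mul_le _ _)
        _ = 2 * (‖y‖ * ‖r‖) := by ring
        _ ≤ (4 * δ + 2 * (1 / 2) ^ 0) * (‖y‖ * ‖r‖) := by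
            gcongr
            norm_num
            exact hδ
        _ = _ := by ring
    | succ n ih =>
      have h3 := stepD M ξ ρ G P Q γ δ (4 * δ + 2 * (1 / 2) ^ n) h1 hK hγ hγ1 hδ (by positivity)
        hDl ih
      have h4 : 2 * δ + (4 * δ + 2 * (1 / 2) ^ n) / 2 = 4 * δ + 2 * (1 / 2 : ℝ) ^ (n + 1) := by
        rw [pow_succ]; ring
      rwa [h4] at h3
  intro y hy r hr
  have h5 : Filter.Tendsto (fun n : ℕ => (4 * δ + 2 * (1 / 2 : ℝ) ^ n) * ‖y‖ * ‖r‖) Filter.atTop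
      (nhds ((4 * δ + 2 * 0) * ‖y‖ * ‖r‖)) := by
    have h6 : Filter.Tendsto (fun n : ℕ => (1 / 2 : ℝ) ^ n) Filter.atTop (nhds 0) :=
      tendsto_pow_atTop_nhds_zero_of_lt_one (by norm_num) (by norm_num)
    exact (((h6.const_mul 2).const_add (4 * δ)).mul_const _).mul_const _
  rw [mul_zero, add_zero] at h5
  exact ge_of_tendsto' h5 (fun n => hn n y hy r hr)

theorem sel : S_SEL := by
  refine ⟨1000, by norm_num, ?_⟩
  intro H _ _ _ M ξ ρ G P Q γ δ hS hG hRM hRM' hK hγ hγ1 hδ hDl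
  have hγ2 : γ ≤ 1 / 160 := hγ1.trans (by norm_num)
  have hDP := dlP M ξ ρ G P Q γ δ hS.unit hRM hK hγ hγ2 hδ hDl
  have hρ : ∀ a ∈ M, ρ a ∈ (M.commutant : Set (H →L[ℂ] H)) := fun a ha =>
    VonNeumannAlgebra.mem_commutant_iff.2 (fun x hx => (hS.comm a ha x hx).symm)
  have hq0 : ∀ a : H →L[ℂ] H, ∃ q : H →L[ℂ] H, a ∈ M → (q ∈ Q ∧ ‖q - ρ a‖ ≤ 5 * γ * ‖a‖ ∧
      ‖(q - ρ a) ξ‖ ≤ 32 * δ * ‖a‖ ∧ (a = 1 → q = 1)) := by
    intro a
    by_cases ha : a ∈ M
    swap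
    · exact ⟨0, fun h => absurd h ha⟩
    by_cases ha1 : a = 1
    · refine ⟨1, fun _ => ⟨hK.oneQ, ?_, ?_, fun _ => rfl⟩⟩
      · rw [ha1, hS.one, sub_self, norm_zero]; positivity
      · rw [ha1, hS.one, sub_self]
        simp only [zero_apply, norm_zero]; positivity
    obtain ⟨q, hq, hq1, hq2⟩ := apx Q P ξ γ (4 * δ) hγ (by positivity) hK.rnQ hK.addQ hK.smulQ
      (fun a ha b hb => (hK.comm b hb a ha).symm) (ρ a) (hK.nM'Q (ρ a) (hρ a ha)) (fun b hb => by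
        have h2 := hDP b hb (ρ a) (hρ a ha)
        have h3 : (ρ a * b - b * ρ a) ξ = -((b * ρ a - ρ a * b) ξ) := by
          simp only [sub_apply]
          abel
        rw [h3, norm_neg]
        calc ‖(b * ρ a - ρ a * b) ξ‖ ≤ 4 * δ * ‖b‖ * ‖ρ a‖ := h2
          _ = 4 * δ * ‖ρ a‖ * ‖b‖ := by ring)
    rw [hS.norm a ha] at hq1 hq2
    refine ⟨q, fun _ => ⟨hq, ?_, ?_, fun h => absurd h ha1⟩⟩
    · rw [norm_sub_rev]; exact hq1
    · have h3 : (q - ρ a) ξ = -((ρ a - q) ξ) := by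
        simp only [sub_apply]
        abel
      rw [h3, norm_neg]
      calc ‖(ρ a - q) ξ‖ ≤ 8 * (4 * δ) * ‖a‖ := hq2
        _ = 32 * δ * ‖a‖ := by ring
  choose q hq using hq0
  have hy0 : ∀ x : H →L[ℂ] H, ∃ y : H →L[ℂ] H, x ∈ M → (y ∈ P ∧ ‖x - y‖ ≤ 5 * γ * ‖x‖ ∧
      ‖(x - y) ξ‖ ≤ 8 * δ * ‖x‖) := by
    intro x
    by_cases hx : x ∈ M
    swap
    · exact ⟨0, fun h => absurd h hx⟩
    obtain ⟨y, hy, hy1, hy2⟩ := apx P Q ξ γ δ hγ hδ hK.rnP hK.addP hK.smulP hK.comm x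
      (hK.nMP x hx) (fun q hq => hDl x hx q hq)
    exact ⟨y, fun _ => ⟨hy, hy1, hy2⟩⟩
  choose y hy using hy0
  have hMadd : ∀ a ∈ M, ∀ b ∈ M, a + b ∈ M := fun a ha b hb => M.toStarSubalgebra.add_mem ha hb
  have hMmul : ∀ a ∈ M, ∀ b ∈ M, a * b ∈ M := fun a ha b hb => M.toStarSubalgebra.mul_mem ha hb
  have hMsmul : ∀ c : ℂ, ∀ a ∈ M, c • a ∈ M := fun c a ha => M.toStarSubalgebra.smul_mem ha c
  have hM1 : (1 : H →L[ℂ] H) ∈ M := M.toStarSubalgebra.one_mem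
  have hsubQ : ∀ s ∈ Q, ∀ t ∈ Q, s - t ∈ Q := by
    intro s hs t ht
    have h := hK.addQ s hs _ (hK.smulQ (-1) t ht)
    rwa [neg_one_smul, ← sub_eq_add_neg] at h
  have hX : ∀ x ∈ M, ∀ s ∈ Q, ∀ t ∈ Q, ∀ r : ℝ, ‖s - t‖ ≤ r →
      ‖(x * s - s * x) ξ - (x * t - t * x) ξ‖ ≤ δ * ‖x‖ * r := by
    intro x hx s hs t ht r hr
    have h1 : (x * s - s * x) ξ - (x * t - t * x) ξ = (x * (s - t) - (s - t) * x) ξ := by
      rw [← sub_apply]
      congr 1
      noncomm_ring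
    rw [h1]
    exact (hDl x hx _ (hsubQ s hs t ht)).trans (by gcongr)
  have hqn : ∀ a ∈ M, ‖q a‖ ≤ 2 * ‖a‖ := by
    intro a ha
    have h1 : q a = (q a - ρ a) + ρ a := by abel
    calc ‖q a‖ = ‖(q a - ρ a) + ρ a‖ := by rw [← h1]
      _ ≤ ‖q a - ρ a‖ + ‖ρ a‖ := norm_add_le _ _
      _ ≤ 5 * γ * ‖a‖ + ‖a‖ := by
          rw [hS.norm a ha]; gcongr; exact (hq a ha).2.1
      _ = (5 * γ + 1) * ‖a‖ := by ring
      _ ≤ 2 * ‖a‖ := by gcongr; linarith
  have hcb : ∀ x ∈ M, ∀ a ∈ M, ‖(x * q a - q a * x) ξ‖ ≤ 2 * δ * ‖x‖ * ‖a‖ := by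
    intro x hx a ha
    calc ‖(x * q a - q a * x) ξ‖ ≤ δ * ‖x‖ * ‖q a‖ := hDl x hx _ (hq a ha).1
      _ ≤ δ * ‖x‖ * (2 * ‖a‖) := by gcongr; exact hqn a ha
      _ = _ := by ring
  have hun : ∀ u : H →L[ℂ] H, star u * u = 1 → ‖u‖ ≤ 1 := by
    intro u hu
    have h1 : ‖u‖ * ‖u‖ = ‖star u * u‖ := (CStarRing.norm_star_mul_self).symm
    rw [hu] at h1
    have h2 : ‖(1 : H →L[ℂ] H)‖ ≤ 1 := ContinuousLinearMap.norm_id_le
    nlinarith [norm_nonneg u]
  refine ⟨fun x a => (x * q a - q a * x) ξ, fun x => x - y x, fun a => q a - ρ a, ?_, ?_, ?_⟩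
  · constructor
    · -- add1
      intro x hx z hz a ha
      simp only [sub_apply, mul_apply_eq_comp, add_apply, map_add]
      abel
    · -- smul1
      intro z x hx a ha
      simp only [sub_apply, mul_apply_eq_comp, smul_apply, map_smul, smul_sub]
    · -- add2
      intro x hx a ha b hb
      have h1 : (x * q (a + b) - q (a + b) * x) ξ - (x * q a - q a * x) ξ - (x * q b - q b * x) ξ =
          (x * q (a + b) - q (a + b) * x) ξ - (x * (q a + q b) - (q a + q b) * x) ξ := by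
        simp only [sub_apply, mul_apply_eq_comp, add_apply, map_add]
        abel
      show ‖(x * q (a + b) - q (a + b) * x) ξ - (x * q a - q a * x) ξ -
        (x * q b - q b * x) ξ‖ ≤ _
      rw [h1]
      refine (hX x hx _ (hq _ (hMadd a ha b hb)).1 _ (hK.addQ _ (hq a ha).1 _ (hq b hb).1)
        (10 * γ * (‖a‖ + ‖b‖)) ?_).trans ?_
      · have h2 : q (a + b) - (q a + q b) = (q (a + b) - ρ (a + b)) - (q a - ρ a) -
            (q b - ρ b) := by
          rw [hS.add a ha b hb]; abel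
        rw [h2]
        calc ‖(q (a + b) - ρ (a + b)) - (q a - ρ a) - (q b - ρ b)‖
            ≤ ‖q (a + b) - ρ (a + b)‖ + ‖q a - ρ a‖ + ‖q b - ρ b‖ :=
              (norm_sub_le _ _).trans (by gcongr; exact norm_sub_le _ _)
          _ ≤ 5 * γ * (‖a‖ + ‖b‖) + 5 * γ * ‖a‖ + 5 * γ * ‖b‖ := by
              gcongr
              · refine (hq _ (hMadd a ha b hb)).2.1.trans ?_
                gcongr; exact norm_add_le _ _
              · exact (hq a ha).2.1
              · exact (hq b hb).2.1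
          _ = _ := by ring
      · calc δ * ‖x‖ * (10 * γ * (‖a‖ + ‖b‖)) = 10 * (γ * δ * ‖x‖ * (‖a‖ + ‖b‖)) := by ring
          _ ≤ 1000 * (γ * δ * ‖x‖ * (‖a‖ + ‖b‖)) := by gcongr; norm_num
          _ = _ := by ring
    · -- smul2
      intro x hx z a ha
      have h1 : (x * q (z • a) - q (z • a) * x) ξ - z • (x * q a - q a * x) ξ =
          (x * q (z • a) - q (z • a) * x) ξ - (x * (z • q a) - (z • q a) * x) ξ := by
        simp only [sub_apply, mul_apply_eq_comp, smul_apply, map_smul, smul_sub]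
      show ‖(x * q (z • a) - q (z • a) * x) ξ - z • (x * q a - q a * x) ξ‖ ≤ _
      rw [h1]
      refine (hX x hx _ (hq _ (hMsmul z a ha)).1 _ (hK.smulQ z _ (hq a ha).1)
        (10 * γ * (‖z‖ * ‖a‖)) ?_).trans ?_
      · have h2 : q (z • a) - z • q a = (q (z • a) - ρ (z • a)) - z • (q a - ρ a) := by
          rw [hS.smul z a ha, smul_sub]; abel
        rw [h2]
        calc ‖(q (z • a) - ρ (z • a)) - z • (q a - ρ a)‖
            ≤ ‖q (z • a) - ρ (z • a)‖ + ‖z • (q a - ρ a)‖ := norm_sub_le _ _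
          _ ≤ 5 * γ * (‖z‖ * ‖a‖) + ‖z‖ * (5 * γ * ‖a‖) := by
              rw [norm_smul]
              gcongr
              · have h3 := (hq _ (hMsmul z a ha)).2.1
                rwa [norm_smul] at h3
              · exact (hq a ha).2.1
          _ = _ := by ring
      · calc δ * ‖x‖ * (10 * γ * (‖z‖ * ‖a‖)) = 10 * (γ * δ * ‖x‖ * (‖z‖ * ‖a‖)) := by ring
          _ ≤ 1000 * (γ * δ * ‖x‖ * (‖z‖ * ‖a‖)) := by gcongr; norm_num
          _ = _ := by ring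
    · -- coc
      intro x hx z hz a ha
      show ‖x ((z * q a - q a * z) ξ) - (x * z * q a - q a * (x * z)) ξ +
        (x * q (z * a) - q (z * a) * x) ξ - ρ a ((x * q z - q z * x) ξ)‖ ≤ _
      have hxa : ∀ v, x (ρ a v) = ρ a (x v) := by
        intro v
        have := congrArg (fun T : H →L[ℂ] H => T v) (hS.comm a ha x hx)
        simpa [mul_apply_eq_comp] using this.symm
      have h1 : x ((z * q a - q a * z) ξ) - (x * z * q a - q a * (x * z)) ξ +
          (x * q (z * a) - q (z * a) * x) ξ - ρ a ((x * q z - q z * x) ξ) =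
          ((x * q (z * a) - q (z * a) * x) ξ - (x * (q a * q z) - (q a * q z) * x) ξ) +
          (q a - ρ a) ((x * q z - q z * x) ξ) +
          (x ((q a - ρ a) ((q z - ρ z) ξ)) - (q a - ρ a) (x ((q z - ρ z) ξ))) := by
        have h2 : z ξ = ρ z ξ := (hS.vec z hz).symm
        simp only [sub_apply, mul_apply_eq_comp, map_sub, hxa, h2]
        abel
      rw [h1]
      have e1 : ‖q (z * a) - q a * q z‖ ≤ 20 * γ * (‖z‖ * ‖a‖) := by
        have h3 : q (z * a) - q a * q z = (q (z * a) - ρ (z * a)) - (q a - ρ a) * ρ z -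
            q a * (q z - ρ z) := by
          rw [hS.mul z hz a ha]; noncomm_ring
        rw [h3]
        calc ‖(q (z * a) - ρ (z * a)) - (q a - ρ a) * ρ z - q a * (q z - ρ z)‖
            ≤ ‖q (z * a) - ρ (z * a)‖ + ‖(q a - ρ a) * ρ z‖ + ‖q a * (q z - ρ z)‖ :=
              (norm_sub_le _ _).trans (by gcongr; exact norm_sub_le _ _)
          _ ≤ 5 * γ * (‖z‖ * ‖a‖) + (5 * γ * ‖a‖) * ‖z‖ + (2 * ‖a‖) * (5 * γ * ‖z‖) := by
              gcongr
              · refine (hq _ (hMmul z hz a ha)).2.1.trans ?_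
                gcongr; exact norm_mul_le _ _
              · refine (norm_mul_le _ _).trans ?_
                rw [hS.norm z hz]
                gcongr; exact (hq a ha).2.1
              · refine (norm_mul_le _ _).trans ?_
                gcongr
                · exact hqn a ha
                · exact (hq z hz).2.1
          _ = 20 * γ * (‖z‖ * ‖a‖) := by ring
      have e2 := hX x hx _ (hq _ (hMmul z hz a ha)).1 _ (hK.mulQ _ (hq a ha).1 _ (hq z hz).1) _ e1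
      have e3 : ‖(q a - ρ a) ((x * q z - q z * x) ξ)‖ ≤ (5 * γ * ‖a‖) * (2 * δ * ‖x‖ * ‖z‖) := by
        refine ((q a - ρ a).le_opNorm _).trans ?_
        gcongr
        · exact (hq a ha).2.1
        · exact hcb x hx z hz
      have e4 : ‖x ((q a - ρ a) ((q z - ρ z) ξ))‖ ≤ ‖x‖ * ((5 * γ * ‖a‖) * (32 * δ * ‖z‖)) := by
        refine (x.le_opNorm _).trans ?_
        gcongr
        refine ((q a - ρ a).le_opNorm _).trans ?_
        gcongr
        · exact (hq a ha).2.1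
        · exact (hq z hz).2.2.1
      have e5 : ‖(q a - ρ a) (x ((q z - ρ z) ξ))‖ ≤ (5 * γ * ‖a‖) * (‖x‖ * (32 * δ * ‖z‖)) := by
        refine ((q a - ρ a).le_opNorm _).trans ?_
        gcongr
        · exact (hq a ha).2.1
        · refine (x.le_opNorm _).trans ?_
          gcongr
          exact (hq z hz).2.2.1
      calc _ ≤ ‖(x * q (z * a) - q (z * a) * x) ξ - (x * (q a * q z) - (q a * q z) * x) ξ‖ +
            ‖(q a - ρ a) ((x * q z - q z * x) ξ)‖ +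
            (‖x ((q a - ρ a) ((q z - ρ z) ξ))‖ + ‖(q a - ρ a) (x ((q z - ρ z) ξ))‖) := by
              refine (norm_add_le _ _).trans ?_
              gcongr
              · exact norm_add_le _ _
              · exact norm_sub_le _ _
        _ ≤ δ * ‖x‖ * (20 * γ * (‖z‖ * ‖a‖)) + (5 * γ * ‖a‖) * (2 * δ * ‖x‖ * ‖z‖) +
            (‖x‖ * ((5 * γ * ‖a‖) * (32 * δ * ‖z‖)) + (5 * γ * ‖a‖) * (‖x‖ * (32 * δ * ‖z‖))) := by
              gcongr
        _ = 350 * (γ * δ * ‖x‖ * ‖z‖ * ‖a‖) := by ring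
        _ ≤ 1000 * (γ * δ * ‖x‖ * ‖z‖ * ‖a‖) := by gcongr; norm_num
        _ = _ := by ring
    · -- bd
      intro x hx a ha
      calc ‖(x * q a - q a * x) ξ‖ ≤ 2 * δ * ‖x‖ * ‖a‖ := hcb x hx a ha
        _ ≤ 1000 * δ * ‖x‖ * ‖a‖ := by gcongr; norm_num
    · -- one1
      intro a ha
      simp
    · -- one2
      intro x hx
      have := (hq 1 hM1).2.2.2 rfl
      simp [this]
    · -- eqT'
      intro x hx a ha
      have hxa : x (ρ a ξ) = ρ a (x ξ) := by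
        have := congrArg (fun T : H →L[ℂ] H => T ξ) (hS.comm a ha x hx)
        simpa [mul_apply_eq_comp] using this.symm
      simp only [sub_apply, mul_apply_eq_comp, map_sub, hxa]
      abel
    · -- nT'
      intro a ha
      calc ‖q a - ρ a‖ ≤ 5 * γ * ‖a‖ := (hq a ha).2.1
        _ ≤ 1000 * γ * ‖a‖ := by gcongr; norm_num
    · -- vT'
      intro a ha
      calc ‖(q a - ρ a) ξ‖ ≤ 32 * δ * ‖a‖ := (hq a ha).2.2.1
        _ ≤ 1000 * δ * ‖a‖ := by gcongr; norm_num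
    · -- eqT
      intro x hx a ha
      show ‖(x * q a - q a * x) ξ - ((x - y x) (a ξ) - ρ a ((x - y x) ξ))‖ ≤ _
      have hyq : ∀ v, y x (q a v) = q a (y x v) := by
        intro v
        have := congrArg (fun T : H →L[ℂ] H => T v) (hK.comm _ (hy x hx).1 _ (hq a ha).1)
        simpa [mul_apply_eq_comp] using this
      have h1 : (x * q a - q a * x) ξ - ((x - y x) (a ξ) - ρ a ((x - y x) ξ)) =
          (x - y x) ((q a - ρ a) ξ) - (q a - ρ a) ((x - y x) ξ) := by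
        have h2 : a ξ = ρ a ξ := (hS.vec a ha).symm
        simp only [sub_apply, mul_apply_eq_comp, map_sub, h2, hyq]
        abel
      rw [h1]
      calc ‖(x - y x) ((q a - ρ a) ξ) - (q a - ρ a) ((x - y x) ξ)‖
          ≤ ‖(x - y x) ((q a - ρ a) ξ)‖ + ‖(q a - ρ a) ((x - y x) ξ)‖ := norm_sub_le _ _
        _ ≤ (5 * γ * ‖x‖) * (32 * δ * ‖a‖) + (5 * γ * ‖a‖) * (8 * δ * ‖x‖) := by
            gcongr
            · refine ((x - y x).le_opNorm _).trans ?_
              gcongr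
              · exact (hy x hx).2.1
              · exact (hq a ha).2.2.1
            · refine ((q a - ρ a).le_opNorm _).trans ?_
              gcongr
              · exact (hq a ha).2.1
              · exact (hy x hx).2.2
        _ = 200 * (γ * δ * ‖x‖ * ‖a‖) := by ring
        _ ≤ 1000 * (γ * δ * ‖x‖ * ‖a‖) := by gcongr; norm_num
        _ = _ := by ring
    · -- nT
      intro x hx
      calc ‖x - y x‖ ≤ 5 * γ * ‖x‖ := (hy x hx).2.1
        _ ≤ 1000 * γ * ‖x‖ := by gcongr; norm_num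
    · -- vT
      intro x hx
      calc ‖(x - y x) ξ‖ ≤ 8 * δ * ‖x‖ := (hy x hx).2.2
        _ ≤ 1000 * δ * ‖x‖ := by gcongr; norm_num
  · constructor
    · -- left
      intro n u hu x hx a ha
      have huq : q a * u = u * q a := (hK.comm u (hK.gP n u hu) _ (hq a ha).1).symm
      show (u * x * q a - q a * (u * x)) ξ = u ((x * q a - q a * x) ξ)
      rw [← mul_assoc, huq]
      simp only [sub_apply, mul_apply_eq_comp, map_sub]
    · -- mid
      intro n u hu x hx a ha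
      have huM := hG.mem n u hu
      have hun1 := hun u (hG.su n u hu)
      have huq : u * q a = q a * u := hK.comm u (hK.gP n u hu) _ (hq a ha).1
      have hxu : x * ρ u = ρ u * x := (hS.comm u huM x hx).symm
      show ‖(x * u * q a - q a * (x * u)) ξ - (x * q (u * a) - q (u * a) * x) ξ‖ ≤ _
      have h1 : (x * u * q a - q a * (x * u)) ξ = (x * (q a * ρ u) - (q a * ρ u) * x) ξ := by
        have h2 : x * u * q a - q a * (x * u) = (x * q a - q a * x) * u := by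
          rw [mul_assoc, huq]; noncomm_ring
        have h3 : x * (q a * ρ u) - (q a * ρ u) * x = (x * q a - q a * x) * ρ u := by
          rw [mul_assoc (q a), ← hxu]; noncomm_ring
        rw [h2, h3]
        simp only [mul_apply_eq_comp, hS.vec u huM]
      rw [h1, norm_sub_rev]
      have e1 : ‖q (u * a) - q a * ρ u‖ ≤ 10 * γ * ‖a‖ := by
        have h4 : q (u * a) - q a * ρ u = (q (u * a) - ρ (u * a)) - (q a - ρ a) * ρ u := by
          rw [hS.mul u huM a ha]; noncomm_ring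
        rw [h4]
        calc _ ≤ ‖q (u * a) - ρ (u * a)‖ + ‖(q a - ρ a) * ρ u‖ := norm_sub_le _ _
          _ ≤ 5 * γ * (1 * ‖a‖) + (5 * γ * ‖a‖) * 1 := by
              gcongr
              · refine (hq _ (hMmul u huM a ha)).2.1.trans ?_
                gcongr
                refine (norm_mul_le _ _).trans ?_
                gcongr
              · refine (norm_mul_le _ _).trans ?_
                rw [hS.norm u huM]
                gcongr
                exact (hq a ha).2.1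
          _ = _ := by ring
      refine (hX x hx _ (hq _ (hMmul u huM a ha)).1 _
        (hK.mulQ _ (hq a ha).1 _ (hK.gQ n u hu)) _ e1).trans ?_
      calc δ * ‖x‖ * (10 * γ * ‖a‖) = 10 * (γ * δ * ‖x‖ * ‖a‖) := by ring
        _ ≤ 1000 * (γ * δ * ‖x‖ * ‖a‖) := by gcongr; norm_num
        _ = _ := by ring
    · -- right
      intro n u hu x hx a ha
      have huM := hG.mem n u hu
      have hun1 := hun u (hG.su n u hu)
      have hxu : x * ρ u = ρ u * x := (hS.comm u huM x hx).symm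
      show ‖(x * q (a * u) - q (a * u) * x) ξ - ρ u ((x * q a - q a * x) ξ)‖ ≤ _
      have h1 : ρ u ((x * q a - q a * x) ξ) = (x * (ρ u * q a) - (ρ u * q a) * x) ξ := by
        have h2 : x * (ρ u * q a) - (ρ u * q a) * x = ρ u * (x * q a - q a * x) := by
          rw [← mul_assoc, hxu]; noncomm_ring
        rw [h2]
        simp only [mul_apply_eq_comp]
      rw [h1]
      have e1 : ‖q (a * u) - ρ u * q a‖ ≤ 10 * γ * ‖a‖ := by
        have h4 : q (a * u) - ρ u * q a = (q (a * u) - ρ (a * u)) - ρ u * (q a - ρ a) := by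
          rw [hS.mul a ha u huM]; noncomm_ring
        rw [h4]
        calc _ ≤ ‖q (a * u) - ρ (a * u)‖ + ‖ρ u * (q a - ρ a)‖ := norm_sub_le _ _
          _ ≤ 5 * γ * (‖a‖ * 1) + 1 * (5 * γ * ‖a‖) := by
              gcongr
              · refine (hq _ (hMmul a ha u huM)).2.1.trans ?_
                gcongr
                refine (norm_mul_le _ _).trans ?_
                gcongr
              · refine (norm_mul_le _ _).trans ?_
                rw [hS.norm u huM]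
                gcongr
                exact (hq a ha).2.1
          _ = _ := by ring
      refine (hX x hx _ (hq _ (hMmul a ha u huM)).1 _
        (hK.mulQ _ (hK.gQ n u hu) _ (hq a ha).1) _ e1).trans ?_
      calc δ * ‖x‖ * (10 * γ * ‖a‖) = 10 * (γ * δ * ‖x‖ * ‖a‖) := by ring
        _ ≤ 1000 * (γ * δ * ‖x‖ * ‖a‖) := by gcongr; norm_num
        _ = _ := by ring
  · intro a ha
    refine ⟨q a, (hq a ha).1, ?_, fun x hx => rfl⟩
    calc ‖q a - ρ a‖ ≤ 5 * γ * ‖a‖ := (hq a ha).2.1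
      _ ≤ 1000 * γ * ‖a‖ := by gcongr; norm_num

end Pool.Agent.W728.KKS.Sel
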